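import Pool.Agent.H28.LF.F1
import Pool.Agent.H49.AG.ER2

/-!
# A component with infinitely many good scales
-/

set_option autoImplicit false

open MeasureTheory ProbabilityTheory Filter Topology Finset
open scoped Nat ENNReal

namespace Pool.Agent.H54.LF

open Pool.Agent.H28.LF
open Pool.Agent.H24.T2 (Pset)
open Pool.Agent.H67.AG (avgP)
open Pool.Agent.H49.AG (er2_lim er2_meas)

theorem sel_btY : Measurable btY :=
  measurable_fst.comp (measurable_pi_apply (0 : ℤ))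

theorem sel_flY (p : ℕ) : MeasurableSet (flY p) := by
  have h : Measurable fun ω : Yi => (ω 0).2.1 p :=
    (measurable_pi_apply p).comp
      (measurable_fst.comp (measurable_snd.comp (measurable_pi_apply (0 : ℤ))))
  exact measurableSet_eq_fun h measurable_const

/-- the averaging argument: some scale of the finite set `M` is good -/
theorem sel_avg {Ω : Type} [MeasurableSpace Ω] (P : Measure Ω) [IsProbabilityMeasure P]
    (M : Finset ℕ) (wt : ℕ → ℝ) (γ : ℝ) (hwt : ∀ m ∈ M, 0 ≤ wt m) (hsum : ∑ m ∈ M, wt m = 1)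
    (G D : ℕ → Set Ω) (hG : ∀ m ∈ M, MeasurableSet (G m)) (hD : ∀ m ∈ M, MeasurableSet (D m))
    (hGP : ∀ m ∈ M, 7 * γ / 16 ≤ P.real (G m)) (hγ : 0 < γ)
    (hdec : ∀ᵐ ω ∂P, ∀ B ⊆ M, (∀ m ∈ B, ω ∉ D m) → ∑ m ∈ B, wt m ≤ γ / 16) :
    γ / 4 ≤ P.real {ω | ∃ m ∈ M, ω ∈ G m ∧ ω ∈ D m} := by
  classical
  set E : Set Ω := {ω | ∃ m ∈ M, ω ∈ G m ∧ ω ∈ D m} with hE
  have hEm : MeasurableSet E := by
    have : E = ⋃ m ∈ M, (G m ∩ D m) := by
      ext ω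
      simp only [hE, Set.mem_ofPred_eq, Set.mem_iUnion, Set.mem_inter_iff, exists_prop]
    rw [this]
    exact Finset.measurableSet_biUnion M fun m hm => (hG m hm).inter (hD m hm)
  have hint : ∀ m ∈ M, Integrable (fun ω => wt m * (G m).indicator (fun _ => (1 : ℝ)) ω) P :=
    fun m hm => ((integrable_const (1 : ℝ)).indicator (hG m hm)).const_mul _
  have h1 : 7 * γ / 16 ≤ ∫ ω, ∑ m ∈ M, wt m * (G m).indicator (fun _ => (1 : ℝ)) ω ∂P := by
    rw [integral_finsetSum _ hint]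
    have h2 : ∀ m ∈ M, wt m * (7 * γ / 16) ≤
        ∫ ω, wt m * (G m).indicator (fun _ => (1 : ℝ)) ω ∂P := by
      intro m hm
      rw [integral_const_mul, integral_indicator_const _ (hG m hm), smul_eq_mul, mul_one]
      exact mul_le_mul_of_nonneg_left (hGP m hm) (hwt m hm)
    have h3 := Finset.sum_le_sum h2
    rw [← Finset.sum_mul, hsum, one_mul] at h3
    exact h3
  have h4 : ∀ᵐ ω ∂P, ∑ m ∈ M, wt m * (G m).indicator (fun _ => (1 : ℝ)) ω ≤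
      γ / 16 + E.indicator (fun _ => (1 : ℝ)) ω := by
    filter_upwards [hdec] with ω hω
    by_cases hωE : ω ∈ E
    · rw [Set.indicator_of_mem hωE]
      have : ∑ m ∈ M, wt m * (G m).indicator (fun _ => (1 : ℝ)) ω ≤ ∑ m ∈ M, wt m := by
        refine Finset.sum_le_sum fun m hm => ?_
        by_cases h : ω ∈ G m
        · rw [Set.indicator_of_mem h, mul_one]
        · rw [Set.indicator_of_notMem h, mul_zero]
          exact hwt m hm
      rw [hsum] at this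
      linarith
    · rw [Set.indicator_of_notMem hωE, add_zero]
      have h5 : ∑ m ∈ M, wt m * (G m).indicator (fun _ => (1 : ℝ)) ω =
          ∑ m ∈ M.filter (fun m => ω ∈ G m), wt m := by
        rw [Finset.sum_filter]
        refine Finset.sum_congr rfl fun m _ => ?_
        by_cases h : ω ∈ G m
        · rw [Set.indicator_of_mem h, mul_one, if_pos h]
        · rw [Set.indicator_of_notMem h, mul_zero, if_neg h]
      rw [h5]
      refine hω _ (Finset.filter_subset _ _) fun m hm => ?_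
      rw [Finset.mem_filter] at hm
      intro hD'
      exact hωE ⟨m, hm.1, hm.2, hD'⟩
  have h6 : ∫ ω, ∑ m ∈ M, wt m * (G m).indicator (fun _ => (1 : ℝ)) ω ∂P ≤
      ∫ ω, (γ / 16 + E.indicator (fun _ => (1 : ℝ)) ω) ∂P :=
    integral_mono_ae (integrable_finsetSum _ hint)
      ((integrable_const _).add ((integrable_const _).indicator hEm)) h4
  rw [integral_add (integrable_const _) ((integrable_const _).indicator hEm),
    integral_indicator_const _ hEm, integral_const, smul_eq_mul, smul_eq_mul,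
    probReal_univ, one_mul, mul_one] at h6
  linarith

theorem pf_SEL (hD : T_DCC) (hM : T_SDM) (hN : T_SDN) (hB : T_SEB) : T_SEL := by
  classical
  intro PX P F B κ hκM γ hPX hSys hF hFi hγ hγF hBm hBp hκ hComp S hS
  have hprob := hSys.prob
  -- the scales
  have hm0 : ∀ i : ℕ, ∃ m₀ : ℕ, i ≤ m₀ ∧ 64 * ((i : ℝ) + 1) ^ 3 ≤ γ * 2 ^ m₀ := by
    intro i
    have ht : Tendsto (fun m : ℕ => γ * (2 : ℝ) ^ m) atTop atTop :=
      (tendsto_pow_atTop_atTop_of_one_lt (by norm_num)).const_mul_atTop hγ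
    have := (ht.eventually (eventually_ge_atTop (64 * ((i : ℝ) + 1) ^ 3))).and
      (eventually_ge_atTop i)
    obtain ⟨m₀, h1, h2⟩ := this.exists
    exact ⟨m₀, h2, h1⟩
  choose m₀ hm₀i hm₀ using hm0
  have hdcc : ∀ i : ℕ, ∃ (M : Finset ℕ) (wt : ℕ → ℝ),
      (∀ m ∈ M, m₀ i ≤ m ∧ (Pset 2 m).Nonempty ∧ 0 ≤ wt m) ∧ ∑ m ∈ M, wt m = 1 ∧
      ∀ (Ω : Type) [MeasurableSpace Ω] (κ : Measure Ω) [IsProbabilityMeasure κ] (T : Ω ≃ᵐ Ω)
        (a : Ω → Bool × Bool) (fl : ℕ → Set Ω), Ergodic T κ → Measurable a →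
        (∀ p, MeasurableSet (fl p)) →
        (∀ p : ℕ, p.Prime → ∀ᵐ ω ∂κ, (ω ∈ fl p ↔ T^[p] ω ∈ fl p) ∧
          ∃! i : ℕ, i < p ∧ T^[i] ω ∈ fl p) →
        ∀ B ⊆ M, (∀ m ∈ B, ¬ DcO T a fl i (1 / ((i : ℝ) + 1)) κ m) → ∑ m ∈ B, wt m ≤ γ / 16 :=
    fun i => hD (Bool × Bool) i (m₀ i) (1 / ((i : ℝ) + 1)) (γ / 16) (by positivity)
      (by positivity)
  choose M wt hM1 hM2 hM3 using hdcc
  set G : ℕ → ℕ → Set Yi := fun i m => {ω | γ / 2 ≤ avgP 2 m (sY F (κ ω))} ∩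
    {ω | (∀ r : ℕ, avgP 2 m (fun p => p * (κ ω).real (flY p ∩ xiY p ⁻¹' (B r))) ≤ 1 / 2 ^ r) ∧
      ∀ j : ℕ, 0 < j → j ≤ i →
        avgP 2 m (fun p => p * (κ ω).real (flY p ∩ ExY p j)) ≤ 1 / ((i : ℝ) + 1) ^ 2} with hGd
  set D : ℕ → ℕ → Set Yi := fun i m => {ω | DcO shY btY flY i (1 / ((i : ℝ) + 1)) (κ ω) m}
    with hDd
  have hsize : ∀ i, ∀ m ∈ M i, 64 * ((i : ℝ) + 1) ^ 3 ≤ γ * 2 ^ m := by
    intro i m hm
    refine (hm₀ i).trans (mul_le_mul_of_nonneg_left ?_ hγ.le)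
    exact pow_le_pow_right₀ (by norm_num) (hM1 i m hm).1
  have hGm : ∀ i, ∀ m ∈ M i, MeasurableSet (G i m) ∧ 7 * γ / 16 ≤ P.real (G i m) := by
    intro i m hm
    obtain ⟨a1, a2⟩ := hN PX P F κ γ m hPX hSys hF hFi hγF hκ hComp (hM1 i m hm).2.1
    obtain ⟨b1, b2⟩ := hB PX P B κ γ i m hPX hSys hBm hBp hκ hγ (hM1 i m hm).2.1
      (hsize i m hm)
    refine ⟨a1.inter b1, ?_⟩
    have h4 := measureReal_union_add_inter (μ := P)
      (s := {ω | γ / 2 ≤ avgP 2 m (sY F (κ ω))}) b1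
    have h5 : P.real ({ω | γ / 2 ≤ avgP 2 m (sY F (κ ω))} ∪ {ω | (∀ r : ℕ,
      avgP 2 m (fun p => p * (κ ω).real (flY p ∩ xiY p ⁻¹' (B r))) ≤ 1 / 2 ^ r) ∧
      ∀ j : ℕ, 0 < j → j ≤ i →
        avgP 2 m (fun p => p * (κ ω).real (flY p ∩ ExY p j)) ≤ 1 / ((i : ℝ) + 1) ^ 2}) ≤ 1 :=
      measureReal_le_one
    rw [hGd]
    dsimp only
    linarith
  have hEP : ∀ i, γ / 4 ≤ P.real {ω | ∃ m ∈ M i, ω ∈ G i m ∧ ω ∈ D i m} := by
    intro i
    refine sel_avg P (M i) (wt i) γ (fun m hm => (hM1 i m hm).2.2) (hM2 i) (G i) (D i)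
      (fun m hm => (hGm i m hm).1) (fun m _ => hM κ i m _) (fun m hm => (hGm i m hm).2) hγ ?_
    filter_upwards [hComp] with ω hω Bs hBs hno
    have := hω.prob
    exact hM3 i Yi (κ ω) shY btY flY hω.erg sel_btY sel_flY (fun p hp => hω.per p hp.pos) Bs hBs
      hno
  have hEm : ∀ i, MeasurableSet {ω | ∃ m ∈ M i, ω ∈ G i m ∧ ω ∈ D i m} := by
    intro i
    have : {ω | ∃ m ∈ M i, ω ∈ G i m ∧ ω ∈ D i m} = ⋃ m ∈ M i, (G i m ∩ D i m) := by
      ext ω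
      simp only [Set.mem_ofPred_eq, Set.mem_iUnion, Set.mem_inter_iff, exists_prop]
    rw [this]
    exact Finset.measurableSet_biUnion _ fun m hm => (hGm i m hm).1.inter (hM κ i m _)
  have hlim : γ / 4 ≤ P.real {ω | ∃ᶠ i in atTop, ω ∈ {ω | ∃ m ∈ M i, ω ∈ G i m ∧ ω ∈ D i m}} :=
    er2_lim P (fun i => {ω | ∃ m ∈ M i, ω ∈ G i m ∧ ω ∈ D i m}) hEm (γ / 4) 0 fun i _ => hEP i
  have hpos : P {ω | ∃ᶠ i in atTop, ω ∈ {ω | ∃ m ∈ M i, ω ∈ G i m ∧ ω ∈ D i m}} ≠ 0 := by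
    intro h0
    rw [measureReal_def, h0, ENNReal.toReal_zero] at hlim
    linarith
  have hfr : ∃ᶠ ω in ae P,
      ω ∈ {ω | ∃ᶠ i in atTop, ω ∈ {ω | ∃ m ∈ M i, ω ∈ G i m ∧ ω ∈ D i m}} :=
    frequently_ae_iff.2 hpos
  obtain ⟨ω, hω, hωS⟩ := (hfr.and_eventually hS).exists
  refine ⟨ω, hωS, Filter.Frequently.mono hω fun i hi => ?_⟩
  obtain ⟨m, hm, hg, hd⟩ := hi
  exact ⟨m,
    { le := (hm₀i i).trans (hM1 i m hm).1
      ne := (hM1 i m hm).2.1
      dens := hg.1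
      bad := hg.2.1
      exc := hg.2.2
      dec := hd }⟩

end Pool.Agent.H54.LF
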