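import Pool.Agent.H28.LF.T1
import Pool.Agent.H28.LF.T2

/-!
# The crossing inequality
-/

set_option autoImplicit false

open MeasureTheory ProbabilityTheory Filter Topology Finset
open scoped Nat ENNReal

namespace Pool.Agent.H54.LF

open Pool.Agent.H28.LF
open Pool.Agent.H67.AG (avgP ul Inv Av Fac)

section meas

variable {d : Sx} (e : SxE d)

theorem x6_iter (t : ℕ) : Measurable (e.T^[t]) := e.T.measurable.iterate t

theorem x6_y (f : e.Ω → Fin d.n) (hf : Measurable f) :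
    Measurable fun ω => d.y (f ω) (e.g ω) := by
  have h : Measurable fun x : Fin d.n × d.Ω' => d.y x.1 x.2 :=
    measurable_from_prod_countable_right fun b => d.ym b
  exact h.comp (hf.prodMk e.fac.1.measurable)

theorem x6_ys : Measurable e.ys := x6_y e e.s e.sm

theorem x6_yt (t : ℕ) : Measurable (e.yt t) := x6_y e _ (e.sm.comp (x6_iter e t))

theorem x6_Pt_set (t : ℕ) :
    MeasurableSet {ω | e.g ω ∈ d.e (e.s ω) (e.s (e.T^[t] ω))} := by
  have : {ω | e.g ω ∈ d.e (e.s ω) (e.s (e.T^[t] ω))} =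
      ⋃ a : Fin d.n, ⋃ b : Fin d.n, (e.s ⁻¹' {a}) ∩ ((fun ω => e.s (e.T^[t] ω)) ⁻¹' {b}) ∩
        (e.g ⁻¹' d.e a b) := by
    ext ω
    simp only [Set.mem_ofPred_eq, Set.mem_iUnion, Set.mem_inter_iff, Set.mem_preimage,
      Set.mem_singleton_iff]
    constructor
    · intro h
      exact ⟨_, _, ⟨rfl, rfl⟩, h⟩
    · rintro ⟨a, b, ⟨rfl, rfl⟩, h⟩
      exact h
  rw [this]
  refine MeasurableSet.iUnion fun a => MeasurableSet.iUnion fun b => ?_
  refine ((e.sm (measurableSet_singleton a)).inter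
    ((e.sm.comp (x6_iter e t)) (measurableSet_singleton b))).inter ?_
  exact e.fac.1.measurable (MeasurableSpace.invariants_le _ _ (d.em a b))

theorem x6_Pt (t : ℕ) : Measurable (e.Pt t) := by
  classical
  unfold SxE.Pt
  exact Measurable.ite (x6_Pt_set e t) measurable_const measurable_const

theorem x6_Pt_mem (t : ℕ) (ω : e.Ω) : 0 ≤ e.Pt t ω ∧ e.Pt t ω ≤ 1 := by
  unfold SxE.Pt
  split_ifs <;> norm_num

theorem x6_mv_nonneg (t : ℕ) (ω : e.Ω) : 0 ≤ e.mv t ω := by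
  unfold SxE.mv
  split_ifs <;> norm_num

theorem x6_Pt_int (t : ℕ) : Integrable (e.Pt t) e.P := by
  refine Integrable.of_bound (x6_Pt e t).aestronglyMeasurable 1 ?_
  refine Eventually.of_forall fun ω => ?_
  rw [Real.norm_eq_abs, abs_le]
  have := x6_Pt_mem e t ω
  constructor <;> linarith [this.1, this.2]

end meas

theorem x6_arith {K γ g m₀ ps p m A1 A2 ML MN E2 E4 I2 IP C ε Q : ℝ} (hK : 0 < K) (hγ : 0 < γ)
    (hg : γ ≤ g) (hγ1 : γ ≤ 1) (hm₀ : 0 < m₀) (hps : 0 ≤ ps) (hpsv : ps * (240 * K) = γ * m₀)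
    (hm0 : 0 ≤ m) (hp0 : 0 ≤ p) (hMN0 : 0 ≤ MN) (hE4 : 0 ≤ E4) (hε : 0 ≤ ε)
    (hpir : g * (30 * K - 3 * K) * m ≤ A1 + A2 + 2 * (30 * K - K) * C)
    (hx2 : A2 ≤ A1 + Q * ML + E2) (hx3 : m₀ * IP ≤ m + E4)
    (hsum : C ≤ 30 * K * (I2 + 4 * MN + ε * p)) (h5 : ps * p ≤ IP)
    (h6 : I2 ≤ (11 / 10 * ps) ^ 2 * p) :
    (γ * m₀) ^ 2 / 16 * p ≤ 2 * A1 + Q * ML + E2 + 30 * K * E4 +
      2 * (30 * K) ^ 2 * (4 * MN + ε * p) := by
  have e1 : γ * (27 * K) * m ≤ g * (30 * K - 3 * K) * m := by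
    have : g * (30 * K - 3 * K) * m - γ * (27 * K) * m = (g - γ) * (27 * K) * m := by ring
    have h00 : 0 ≤ g - γ := by linarith
    have h0 : 0 ≤ (g - γ) * (27 * K) * m := by positivity
    linarith
  have e2 : m₀ * ps * p - E4 ≤ m := by
    have : m₀ * (ps * p) ≤ m₀ * IP := mul_le_mul_of_nonneg_left h5 hm₀.le
    linarith
  have e3 : γ * (27 * K) * (m₀ * ps * p - E4) ≤ γ * (27 * K) * m :=
    mul_le_mul_of_nonneg_left e2 (by positivity)
  have e4 : γ * (27 * K) * E4 ≤ 30 * K * E4 := by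
    have h0 : γ * (27 * K) ≤ 1 * (27 * K) := mul_le_mul_of_nonneg_right hγ1 (by positivity)
    have : γ * (27 * K) ≤ 30 * K := by linarith
    exact mul_le_mul_of_nonneg_right this hE4
  have e5 : 2 * (30 * K - K) * C ≤
      58 * K * (30 * K * ((11 / 10 * ps) ^ 2 * p + 4 * MN + ε * p)) := by
    have h58 : 2 * (30 * K - K) = 58 * K := by ring
    rw [h58]
    refine mul_le_mul_of_nonneg_left (hsum.trans ?_) (by positivity)
    refine mul_le_mul_of_nonneg_left ?_ (by positivity)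
    linarith [h6]
  have e6 : 58 * K * (30 * K) * (4 * MN + ε * p) ≤ 2 * (30 * K) ^ 2 * (4 * MN + ε * p) := by
    have h0 : 0 ≤ 4 * MN + ε * p := by positivity
    have h1 : 0 ≤ K * K := by positivity
    have : 58 * K * (30 * K) ≤ 2 * (30 * K) ^ 2 := by linarith
    exact mul_le_mul_of_nonneg_right this h0
  have h1 : γ * (27 * K) * (m₀ * ps * p) = 27 / 240 * (γ * m₀) ^ 2 * p := by
    have : γ * (27 * K) * (m₀ * ps * p) = 27 / 240 * (γ * m₀) * (ps * (240 * K)) * p := by ring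
    rw [this, hpsv]; ring
  have h2 : 58 * K * (30 * K * ((11 / 10 * ps) ^ 2 * p)) =
      1740 * 121 / 5760000 * (γ * m₀) ^ 2 * p := by
    have : 58 * K * (30 * K * ((11 / 10 * ps) ^ 2 * p)) =
      1740 * 121 / 5760000 * (ps * (240 * K)) ^ 2 * p := by ring
    rw [this, hpsv]
  have h3 : 0 ≤ (γ * m₀) ^ 2 * p := by positivity
  have e5' : 58 * K * (30 * K * ((11 / 10 * ps) ^ 2 * p + 4 * MN + ε * p)) =
      58 * K * (30 * K * ((11 / 10 * ps) ^ 2 * p)) + 58 * K * (30 * K) * (4 * MN + ε * p) := by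
    ring
  have e3' : γ * (27 * K) * (m₀ * ps * p - E4) =
      γ * (27 * K) * (m₀ * ps * p) - γ * (27 * K) * E4 := by ring
  rw [e5', h2] at e5
  rw [e3', h1] at e3
  linarith

theorem pf_X6 (hP : T_PIR) (h2 : T_X2) (h3 : T_X3) (h4 : T_X4) (hL : T_LAB) : T_X6 := by
  intro ε hε
  obtain ⟨w₀, hw₀⟩ := h4 ε hε
  refine ⟨w₀, fun w hw d e L L₂ N t B hLp hL₂ hN hB hcond => ?_⟩
  have hBm : MeasurableSet B := MeasurableSpace.invariants_le _ _ hB
  have hK : (0 : ℝ) < d.K := by exact_mod_cast d.hK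
  -- the frequencies
  obtain ⟨hA0, hA1, hds1, -, -⟩ := hL e.Ω e.P e.T d.U d.s d.q _ d.Bad e.ys e.ys B e.mp d.hU d.sv
    (x6_ys e) (x6_ys e) hB
  have hγ1 : d.γ ≤ 1 := d.hγ.trans hds1
  -- the pair inequality
  have hpir := hP e.Ω e.P e.T d.U d.s d.q d.K (30 * d.K) d.Bad e.ys (e.yt t) B e.mp d.hU d.sv
    d.code (by omega) (x6_ys e) (x6_yt e t) hB
  have hx2 := h2 d e L t B hLp hB
  have hx3 := h3 d e L₂ t B hL₂ hB
  have hx4 : ∀ k ∈ Icc 1 (30 * d.K), Cd d.U e.P e.T (dm e.ys (e.yt t)) B k ≤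
      ∫ ω in B, ((e.P[e.Pt t | Inv e.T 1]) ω) ^ 2 ∂e.P +
      4 * ∑ r ∈ range N, ∫ ω in B, e.mv r ω ∂e.P + ε * e.P.real B := by
    intro k hk
    rw [mem_Icc] at hk
    refine hw₀ w hw d e t k N B hB (by omega) (le_trans ?_ hN)
    exact Nat.mul_le_mul_left _ hk.2
  have hsum : ∑ k ∈ Icc 1 (30 * d.K), Cd d.U e.P e.T (dm e.ys (e.yt t)) B k ≤
      (30 * (d.K : ℝ)) * (∫ ω in B, ((e.P[e.Pt t | Inv e.T 1]) ω) ^ 2 ∂e.P +
      4 * ∑ r ∈ range N, ∫ ω in B, e.mv r ω ∂e.P + ε * e.P.real B) := by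
    refine (Finset.sum_le_card_nsmul _ _ _ hx4).trans (le_of_eq ?_)
    rw [Nat.card_Icc, nsmul_eq_mul]
    congr 1
    push_cast [Nat.add_sub_cancel]
    simp
  -- the conditional expectation
  have hint : Integrable (e.P[e.Pt t | Inv e.T 1]) e.P := integrable_condExp
  have hIeq : ∫ ω in B, (e.P[e.Pt t | Inv e.T 1]) ω ∂e.P = ∫ ω in B, e.Pt t ω ∂e.P :=
    setIntegral_condExp (MeasurableSpace.invariants_le _) (x6_Pt_int e t) hB
  have hps : 0 < d.ps := by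
    unfold Sx.ps
    have := d.γ0
    have := d.m0
    positivity
  have h5 : d.ps * e.P.real B ≤ ∫ ω in B, e.Pt t ω ∂e.P := by
    rw [← hIeq]
    have : ∫ _ω in B, d.ps ∂e.P ≤ ∫ ω in B, (e.P[e.Pt t | Inv e.T 1]) ω ∂e.P := by
      refine setIntegral_mono_on_ae (integrable_const _).integrableOn hint.integrableOn hBm ?_
      filter_upwards [hcond] with ω hω hωB
      exact (hω hωB).1.le
    rw [setIntegral_const, smul_eq_mul, mul_comm] at this
    exact this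
  have h6 : ∫ ω in B, ((e.P[e.Pt t | Inv e.T 1]) ω) ^ 2 ∂e.P ≤
      (11 / 10 * d.ps) ^ 2 * e.P.real B := by
    have hle : ∫ ω in B, ((e.P[e.Pt t | Inv e.T 1]) ω) ^ 2 ∂e.P ≤
        ∫ _ω in B, (11 / 10 * d.ps) ^ 2 ∂e.P := by
      refine integral_mono_of_nonneg (Eventually.of_forall fun ω => sq_nonneg _)
        (integrable_const _).integrableOn ?_
      rw [EventuallyLE, ae_restrict_iff' hBm]
      filter_upwards [hcond] with ω hω hωB
      have := hω hωB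
      exact pow_le_pow_left₀ (by linarith [this.1]) this.2 2
    rw [setIntegral_const, smul_eq_mul, mul_comm] at hle
    exact hle
  -- nonnegativity
  have hm0 : 0 ≤ ∫ ω in B, dm e.ys (e.yt t) ω ∂e.P := by
    refine integral_nonneg fun ω => ?_
    unfold dm
    split_ifs <;> norm_num
  have hp0 : 0 ≤ e.P.real B := measureReal_nonneg
  have hmv : ∀ n : ℕ, 0 ≤ ∑ r ∈ range n, ∫ ω in B, e.mv r ω ∂e.P := fun n =>
    Finset.sum_nonneg fun r _ => integral_nonneg fun ω => x6_mv_nonneg e r ω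
  have hE4 : 0 ≤ e.E4 L₂ B := by
    unfold SxE.E4
    have h1 : 0 ≤ 2 / (L₂ : ℝ) * ∑ l ∈ range L₂, ∫ ω in B, e.mv l ω ∂e.P :=
      mul_nonneg (by positivity) (hmv L₂)
    have h2' : 0 ≤ ∑ a, ∑ b, ∫ ω in B, |Av d.T' 1 L₂ (d.gg a b) (e.g ω) -
        (d.P'[d.gg a b | Inv d.T' 1]) (e.g ω)| ∂e.P :=
      Finset.sum_nonneg fun a _ => Finset.sum_nonneg fun b _ =>
        integral_nonneg fun ω => abs_nonneg _
    linarith
  -- the end
  have hcast : ((30 * d.K : ℕ) : ℝ) = 30 * (d.K : ℝ) := by push_cast; ring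
  rw [hcast] at hpir
  have hpsv : d.ps * (240 * d.K) = d.γ * d.m₀ := by
    unfold Sx.ps
    field_simp
  unfold SxE.EE
  exact x6_arith hK d.γ0 d.hγ hγ1 d.m0 hps.le hpsv hm0 hp0 (hmv N) hE4 hε.le hpir hx2 hx3 hsum h5 h6

end Pool.Agent.H54.LF
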