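import Pool.Agent.H25.LF.Targets

/-!
MP_04ff0f_nt, row LOW: the primes `l ≤ x ^ θ` with `θ ≤ 1 / 2`.
-/

set_option autoImplicit false

open Finset Real ArithmeticFunction

namespace Pool.Agent.H54.LF

open Pool.Agent.H25.LF

private theorem term_nonneg {f : ℕ → ℝ} (hf : ∀ l, 0 ≤ f l) (l : ℕ) :
    0 ≤ Real.log l * f l := mul_nonneg (Real.log_natCast_nonneg l) (hf l)

private theorem sum_union_le {f : ℕ → ℝ} (hf : ∀ l, 0 ≤ f l) (A B : Finset ℕ) :
    ∑ l ∈ A ∪ B, Real.log l * f l ≤ ∑ l ∈ A, Real.log l * f l + ∑ l ∈ B, Real.log l * f l := by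
  rw [← Finset.sum_union_inter]
  have : 0 ≤ ∑ l ∈ A ∩ B, Real.log l * f l := Finset.sum_nonneg fun l _ => term_nonneg hf l
  linarith

private theorem SL_split {f : ℕ → ℝ} (hf : ∀ l, 0 ≤ f l) (y0 y1 z : ℝ) :
    SL 1 z f ≤ SL 1 y0 f + (SL y0 y1 f + SL y1 z f) := by
  unfold SL
  have h1 : (PR z).filter (fun l : ℕ => (1 : ℝ) < (l : ℝ)) ⊆
      (PR y0).filter (fun l : ℕ => (1 : ℝ) < (l : ℝ)) ∪
        ((PR y1).filter (fun l : ℕ => y0 < (l : ℝ)) ∪
          (PR z).filter (fun l : ℕ => y1 < (l : ℝ))) := by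
    intro l hl
    unfold PR at hl ⊢
    simp only [Finset.mem_union, Finset.mem_filter, Finset.mem_Icc] at hl ⊢
    obtain ⟨⟨⟨h1, h2⟩, h3⟩, h4⟩ := hl
    by_cases h5 : (l : ℝ) ≤ y0
    · exact Or.inl ⟨⟨⟨h1, Nat.le_floor h5⟩, h3⟩, h4⟩
    · rw [not_le] at h5
      right
      by_cases h6 : (l : ℝ) ≤ y1
      · exact Or.inl ⟨⟨⟨h1, Nat.le_floor h6⟩, h3⟩, h5⟩
      · rw [not_le] at h6
        exact Or.inr ⟨⟨⟨h1, h2⟩, h3⟩, h6⟩
  refine (Finset.sum_le_sum_of_subset_of_nonneg h1 fun l _ _ => term_nonneg hf l).trans ?_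
  refine (sum_union_le hf _ _).trans ?_
  have := sum_union_le hf ((PR y1).filter (fun l : ℕ => y0 < (l : ℝ)))
    ((PR z).filter (fun l : ℕ => y1 < (l : ℝ)))
  linarith

private theorem NN_nonneg (y : ℝ) (d : ℕ) : 0 ≤ NN y d := by
  unfold NN
  exact Nat.cast_nonneg _

private theorem SL_cnv (hCNV : T_CNV) (η x : ℝ) (hη : 0 < η) (hη1 : η < 1) (hx : 1 < x)
    (y z : ℝ) : SL y z (NN x) ≤ 1 / ((1 - η) * Real.log x) * SL y z (LL x) +
      SL y z (NN (x ^ (1 - η))) := by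
  unfold SL
  rw [Finset.mul_sum, ← Finset.sum_add_distrib]
  refine Finset.sum_le_sum fun l _ => ?_
  have hL : 0 < Real.log x := Real.log_pos hx
  have h1 := hCNV η x l hη hη1 hx
  have h2 : NN x l ≤ 1 / ((1 - η) * Real.log x) * LL x l + NN (x ^ (1 - η)) l := by
    have h3 : (0 : ℝ) < 1 - η := by linarith
    have h4 : NN x l ≤ (LL x l / (1 - η) + Real.log x * NN (x ^ (1 - η)) l) / Real.log x := by
      rw [le_div_iff₀ hL]
      exact h1
    refine h4.trans (le_of_eq ?_)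
    field_simp
  have h5 := mul_le_mul_of_nonneg_left h2 (Real.log_natCast_nonneg l)
  refine h5.trans (le_of_eq ?_)
  ring

/-- **LOW.** -/
theorem pf_LOW (hLBF : T_LBF) (hCNV : T_CNV) (hCRD : T_CRD) : T_LOW := by
  intro θ δ hθ hθ2 hδ
  obtain ⟨C, xc, hC, hcrd⟩ := hCRD (3 / 4) (by norm_num) (by norm_num)
  obtain ⟨ε, hε⟩ : ∃ ε : ℝ, ε = min (1 / 8) (δ / (8 * C)) := ⟨_, rfl⟩
  have hε0 : 0 < ε := by rw [hε]; exact lt_min (by norm_num) (by positivity)
  have hε8 : ε ≤ 1 / 8 := by rw [hε]; exact min_le_left _ _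
  have hεC : C * ε ≤ δ / 8 := by
    have h1 : ε ≤ δ / (8 * C) := by rw [hε]; exact min_le_right _ _
    rw [le_div_iff₀ (by positivity)] at h1
    linarith
  obtain ⟨η, hη⟩ : ∃ η : ℝ, η = min (1 / 4) (δ / 8) := ⟨_, rfl⟩
  have hη0 : 0 < η := by rw [hη]; exact lt_min (by norm_num) (by positivity)
  have hη4 : η ≤ 1 / 4 := by rw [hη]; exact min_le_left _ _
  have hηδ : η ≤ δ / 8 := by rw [hη]; exact min_le_right _ _
  obtain ⟨θ₁, hθ₁⟩ : ∃ θ₁ : ℝ, θ₁ = min θ (1 / 2 - ε) := ⟨_, rfl⟩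
  have hθ₁0 : 0 < θ₁ := by rw [hθ₁]; exact lt_min hθ (by linarith)
  have hθ₁θ : θ₁ ≤ θ := by rw [hθ₁]; exact min_le_left _ _
  have hθ₁ε : θ₁ ≤ 1 / 2 - ε := by rw [hθ₁]; exact min_le_right _ _
  have hθθ₁ : θ - θ₁ ≤ ε := by
    rw [hθ₁]
    rcases min_choice θ (1 / 2 - ε) with h | h <;> rw [h] <;> linarith
  obtain ⟨xl, hlbf⟩ := hLBF ε η hε0 (by linarith) hη0
  -- the conditions on x
  have hlog := Real.tendsto_log_atTop
  have e1 : ∀ᶠ x : ℝ in Filter.atTop, xc ≤ x := Filter.eventually_ge_atTop _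
  have e2 : ∀ᶠ x : ℝ in Filter.atTop, xc ≤ x ^ (1 - η) :=
    (tendsto_rpow_atTop (by linarith : 0 < 1 - η)).eventually_ge_atTop _
  have e3 : ∀ᶠ x : ℝ in Filter.atTop, xl ≤ x := Filter.eventually_ge_atTop _
  have e4 : ∀ᶠ x : ℝ in Filter.atTop, Real.log x ^ 6 ≤ x ^ θ₁ := by
    have h1 := (isLittleO_log_rpow_rpow_atTop (6 : ℝ) hθ₁0).bound (zero_lt_one)
    filter_upwards [h1, Filter.eventually_ge_atTop (1 : ℝ)] with x hx hx1
    rw [one_mul, Real.norm_eq_abs, Real.norm_eq_abs] at hx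
    have h0 : |x ^ θ₁| = x ^ θ₁ := abs_of_nonneg (Real.rpow_nonneg (by linarith) _)
    rw [h0] at hx
    have h2 := (le_abs_self _).trans hx
    have h3 : Real.log x ^ (6 : ℝ) = Real.log x ^ 6 := by
      rw [← Real.rpow_natCast]
      norm_num
    rwa [h3] at h2
  have e5 : ∀ᶠ x : ℝ in Filter.atTop,
      (6 * Real.log (Real.log x) + C) * C / Real.log x ≤ δ / 8 := by
    have h1 : Filter.Tendsto (fun L : ℝ => (6 * Real.log L + C) * C / L) Filter.atTop
        (nhds 0) := by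
      have h2 : Filter.Tendsto (fun L : ℝ => Real.log L / L) Filter.atTop (nhds 0) :=
        Real.isLittleO_log_id_atTop.tendsto_div_nhds_zero
      have h3 : Filter.Tendsto (fun L : ℝ => L⁻¹) Filter.atTop (nhds 0) :=
        tendsto_inv_atTop_zero
      have h4 := (h2.const_mul (6 * C)).add (h3.const_mul (C * C))
      simp only [mul_zero, add_zero] at h4
      refine h4.congr fun L => ?_
      rw [div_eq_mul_inv, div_eq_mul_inv]
      ring
    exact (h1.comp hlog).eventually (ge_mem_nhds (by positivity : 0 < δ / 8))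
  have e6 : ∀ᶠ x : ℝ in Filter.atTop, C * (4 / 3) * (1 + C) * x ^ (-η) ≤ δ / 8 := by
    have h1 := (tendsto_rpow_neg_atTop hη0).const_mul (C * (4 / 3) * (1 + C))
    rw [mul_zero] at h1
    exact h1.eventually (ge_mem_nhds (by positivity : 0 < δ / 8))
  have e7 : ∀ᶠ x : ℝ in Filter.atTop, 1 ≤ Real.log x := hlog.eventually_ge_atTop _
  have e8 : ∀ᶠ x : ℝ in Filter.atTop, (1 : ℝ) < x := Filter.eventually_gt_atTop _
  obtain ⟨x₀, hx₀⟩ := Filter.eventually_atTop.1
    (e1.and (e2.and (e3.and (e4.and (e5.and (e6.and (e7.and e8)))))))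
  refine ⟨x₀, fun x hx => ?_⟩
  obtain ⟨c1, c2, c3, c4, c5, c6, c7, c8⟩ := hx₀ x hx
  obtain ⟨L, hL⟩ : ∃ L : ℝ, L = Real.log x := ⟨_, rfl⟩
  rw [← hL] at c4 c5 c7
  have hx0 : 0 < x := by linarith
  have hL0 : 0 < L := by linarith
  have hlogL : 0 ≤ Real.log L := Real.log_nonneg c7
  have hL6 : 1 ≤ L ^ 6 := one_le_pow₀ c7
  have hmono : ∀ {s t : ℝ}, s ≤ t → x ^ s ≤ x ^ t := fun h =>
    Real.rpow_le_rpow_of_exponent_le c8.le h
  have hy1 : 1 ≤ x ^ θ₁ := hL6.trans c4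
  refine (SL_split (NN_nonneg x) (L ^ 6) (x ^ θ₁) (x ^ θ)).trans ?_
  -- the first range
  have t1 : SL 1 (L ^ 6) (NN x) ≤ δ / 8 * x := by
    have h1 := hcrd x c1 1 (L ^ 6) le_rfl hL6 (c4.trans (hmono (by linarith)))
    rw [← hL, div_one, Real.log_pow] at h1
    refine h1.trans ?_
    have h2 : C * x / L * (((6 : ℕ) : ℝ) * Real.log L + C) =
        (6 * Real.log L + C) * C / L * x := by
      push_cast
      field_simp
    rw [h2]
    exact mul_le_mul_of_nonneg_right c5 hx0.le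
  -- the third range
  have t3 : SL (x ^ θ₁) (x ^ θ) (NN x) ≤ (δ / 8 + δ / 8) * x := by
    have h1 := hcrd x c1 (x ^ θ₁) (x ^ θ) hy1 (hmono hθ₁θ) (hmono (by linarith))
    rw [← hL, ← Real.rpow_sub hx0, Real.log_rpow hx0, ← hL] at h1
    refine h1.trans ?_
    have h2 : C * x / L * ((θ - θ₁) * L + C) = (C * (θ - θ₁) + C * C / L) * x := by
      field_simp
    rw [h2]
    refine mul_le_mul_of_nonneg_right ?_ hx0.le
    have h3 : C * (θ - θ₁) ≤ C * ε := mul_le_mul_of_nonneg_left hθθ₁ hC.le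
    have h4 : C * C / L ≤ (6 * Real.log L + C) * C / L := by
      refine div_le_div_of_nonneg_right ?_ hL0.le
      nlinarith
    linarith
  -- the second range
  have t2 : SL (L ^ 6) (x ^ θ₁) (NN x) ≤ (θ + δ / 4) * x + δ / 8 * x := by
    have h1 := SL_cnv hCNV η x hη0 (by linarith) c8 (L ^ 6) (x ^ θ₁)
    rw [← hL] at h1
    refine h1.trans (add_le_add ?_ ?_)
    · have h2 := hlbf x c3 (x ^ θ₁) (by rw [← hL]; exact c4) (hmono hθ₁ε)
      rw [Real.log_rpow hx0, ← hL] at h2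
      have h3 : (0 : ℝ) < 1 - η := by linarith
      have h4 : 1 / ((1 - η) * L) * SL (L ^ 6) (x ^ θ₁) (LL x) ≤
          1 / ((1 - η) * L) * (x * (θ₁ * L) + η * x * L) :=
        mul_le_mul_of_nonneg_left h2 (by positivity)
      refine h4.trans ?_
      have h5 : 1 / ((1 - η) * L) * (x * (θ₁ * L) + η * x * L) = (θ₁ + η) / (1 - η) * x := by
        field_simp
      rw [h5]
      refine mul_le_mul_of_nonneg_right ?_ hx0.le
      rw [div_le_iff₀ h3]
      nlinarith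
    · obtain ⟨x', hx'⟩ : ∃ x' : ℝ, x' = x ^ (1 - η) := ⟨_, rfl⟩
      rw [← hx'] at c2 ⊢
      have hlx' : Real.log x' = (1 - η) * L := by rw [hx', Real.log_rpow hx0, hL]
      have hx'0 : 0 < x' := by rw [hx']; positivity
      have h2 := hcrd x' c2 (L ^ 6) (x ^ θ₁) hL6 c4 (by
        rw [hx', ← Real.rpow_mul hx0.le]
        exact hmono (by nlinarith))
      refine h2.trans ?_
      rw [hlx']
      have h3 : Real.log (x ^ θ₁ / L ^ 6) ≤ L := by
        have h4 : Real.log (x ^ θ₁ / L ^ 6) ≤ Real.log (x ^ θ₁) := by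
          apply Real.log_le_log (by positivity)
          exact div_le_self (by positivity) hL6
        rw [Real.log_rpow hx0, ← hL] at h4
        nlinarith
      have h4 : C * x' / ((1 - η) * L) * (Real.log (x ^ θ₁ / L ^ 6) + C) ≤
          C * x' / (3 / 4 * L) * ((1 + C) * L) := by
        have h5 : 0 ≤ C * x' / ((1 - η) * L) := by
          have : (0 : ℝ) < 1 - η := by linarith
          positivity
        have h6 : Real.log (x ^ θ₁ / L ^ 6) + C ≤ (1 + C) * L := by nlinarith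
        have h7 : C * x' / ((1 - η) * L) ≤ C * x' / (3 / 4 * L) := by
          apply div_le_div_of_nonneg_left (by positivity) (by positivity)
          nlinarith
        calc C * x' / ((1 - η) * L) * (Real.log (x ^ θ₁ / L ^ 6) + C)
            ≤ C * x' / ((1 - η) * L) * ((1 + C) * L) := mul_le_mul_of_nonneg_left h6 h5
          _ ≤ _ := mul_le_mul_of_nonneg_right h7 (by positivity)
      refine h4.trans ?_
      have h5 : C * x' / (3 / 4 * L) * ((1 + C) * L) = C * (4 / 3) * (1 + C) * x' := by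
        field_simp
      have h6 : x' = x ^ (-η) * x := by
        rw [hx']
        nth_rewrite 3 [← Real.rpow_one x]
        rw [← Real.rpow_add hx0]
        congr 1
        ring
      rw [h5, h6, ← mul_assoc]
      exact mul_le_mul_of_nonneg_right c6 hx0.le
  have : 0 < δ * x := by positivity
  nlinarith

end Pool.Agent.H54.LF
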